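import Pool.Agent.helper95.PY2.Spec

/-! Row py2:FINM: Moebius images of intervals. -/

set_option autoImplicit false

open Finset

namespace Pool.Agent.PY2

theorem FINM_point {p : ℕ} [Fact p.Prime] (χ : MulChar (ZMod p) ℂ) (a b c d n w : ZMod p)
    (h1 : c * n + d ≠ 0) (h2 : a + c * w ≠ 0) :
    χ ((a * n + b) / (c * n + d) + w) =
      χ ((c * n + d)⁻¹) * (χ (a + c * w) * χ (n + (b + d * w) / (a + c * w))) := by
  rw [← map_mul, ← map_mul]
  congr 1
  have e1 : (a + c * w) * (n + (b + d * w) / (a + c * w)) = (a + c * w) * n + (b + d * w) := by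
    rw [mul_add, mul_div_cancel₀ _ h2]
  have e2 : w = (c * n + d)⁻¹ * ((c * n + d) * w) := by
    rw [inv_mul_cancel_left₀ h1]
  rw [e1, div_eq_inv_mul]
  calc (c * n + d)⁻¹ * (a * n + b) + w
      = (c * n + d)⁻¹ * (a * n + b) + (c * n + d)⁻¹ * ((c * n + d) * w) := by rw [← e2]
    _ = _ := by ring

theorem FINM_norm {p : ℕ} [Fact p.Prime] (χ : MulChar (ZMod p) ℂ) (x : ZMod p) : ‖χ x‖ ≤ 1 :=
  DirichletCharacter.norm_le_one χ x

theorem FINM_inj {p : ℕ} [Fact p.Prime] (a b c d w v : ZMod p) (h : a * d - b * c ≠ 0)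
    (h1 : a + c * w ≠ 0) (h2 : a + c * v ≠ 0)
    (he : (b + d * w) / (a + c * w) = (b + d * v) / (a + c * v)) : w = v := by
  rw [div_eq_div_iff h1 h2] at he
  have h3 : (a * d - b * c) * (w - v) = 0 := by linear_combination he
  rcases mul_eq_zero.mp h3 with h4 | h4
  · exact absurd h4 h
  · exact sub_eq_zero.mp h4

theorem FINM_num (δ₀ ε : ℝ) (hδ : 0 < δ₀) (hε : 0 < ε) : ∃ p₁ : ℕ, ∀ p : ℕ, p₁ < p →
    2 ≤ (p : ℝ) ^ (ε / 2) ∧ 2 ≤ (p : ℝ) ^ (min δ₀ ε / 2) := by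
  have hm : 0 < min δ₀ ε := lt_min hδ hε
  refine ⟨⌈(2 : ℝ) ^ (2 / min δ₀ ε)⌉₊, fun p hp => ?_⟩
  have hp2 : (2 : ℝ) ^ (2 / min δ₀ ε) ≤ p := by
    have h1 := Nat.le_ceil ((2 : ℝ) ^ (2 / min δ₀ ε))
    have h2 : ((⌈(2 : ℝ) ^ (2 / min δ₀ ε)⌉₊ : ℕ) : ℝ) ≤ p := by exact_mod_cast hp.le
    linarith
  have h3 : 2 ≤ (p : ℝ) ^ (min δ₀ ε / 2) := by
    have h4 : ((2 : ℝ) ^ (2 / min δ₀ ε)) ^ (min δ₀ ε / 2) = 2 := by
      rw [← Real.rpow_mul (by norm_num)]
      have : 2 / min δ₀ ε * (min δ₀ ε / 2) = 1 := by field_simp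
      rw [this, Real.rpow_one]
    calc (2 : ℝ) = ((2 : ℝ) ^ (2 / min δ₀ ε)) ^ (min δ₀ ε / 2) := h4.symm
      _ ≤ (p : ℝ) ^ (min δ₀ ε / 2) := Real.rpow_le_rpow (by positivity) hp2 (by positivity)
  refine ⟨?_, h3⟩
  have hp1 : (1 : ℝ) ≤ p := by
    have : (1 : ℝ) ≤ (2 : ℝ) ^ (2 / min δ₀ ε) := Real.one_le_rpow (by norm_num) (by positivity)
    linarith
  refine h3.trans (Real.rpow_le_rpow_of_exponent_le hp1 ?_)
  have := min_le_right δ₀ ε
  linarith

theorem FINM (h1 : FIN_stmt) : FINM_stmt := by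
  intro ε hε
  obtain ⟨δ₀, hδ₀, p₀, hF⟩ := h1 (ε / 2) (by linarith)
  obtain ⟨p₁, hp₁⟩ := FINM_num δ₀ ε hδ₀ hε
  have hm : 0 < min δ₀ ε := lt_min hδ₀ hε
  refine ⟨min δ₀ ε / 2, by linarith, max p₀ p₁, ?_⟩
  intro p hp hpp A B a b c d N hdet hNp hA hN hB hNB χ hχ β hβ
  obtain ⟨n1, n2⟩ := hp₁ p ((le_max_right _ _).trans_lt hpp)
  have hp0 : (0 : ℝ) < p := by exact_mod_cast hp.out.pos
  have hp1 : (1 : ℝ) ≤ p := by exact_mod_cast hp.out.one_lt.le
  have hFp := hF p ((le_max_left _ _).trans_lt hpp)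
  -- choose `n`
  choose! n hnN hnd hnz using hA
  set B₁ : Finset (ZMod p) := B.filter (fun w => a + c * w ≠ 0) with hB₁
  set g : ZMod p → ZMod p := fun w => (b + d * w) / (a + c * w) with hg
  have hginj : Set.InjOn g (B₁ : Set (ZMod p)) := by
    intro w hw v hv he
    have hw' := (mem_filter.mp (mem_coe.mp hw)).2
    have hv' := (mem_filter.mp (mem_coe.mp hv)).2
    exact FINM_inj a b c d w v hdet hw' hv' he
  have hBcard : B.card ≤ B₁.card + 1 := by
    have h2 : (B.filter (fun w => ¬ (a + c * w ≠ 0))).card ≤ 1 := by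
      rw [card_le_one]
      intro x hx y hy
      have hx' := (mem_filter.mp hx).2
      have hy' := (mem_filter.mp hy).2
      rw [not_not] at hx' hy'
      have h3 : c * (x - y) = 0 := by linear_combination hx' - hy'
      rcases mul_eq_zero.mp h3 with h4 | h4
      · exfalso
        rw [h4, zero_mul, add_zero] at hx'
        apply hdet
        rw [h4, hx']
        ring
      · exact sub_eq_zero.mp h4
    have h5 : B₁.card + (B.filter (fun w => ¬ (a + c * w ≠ 0))).card = B.card :=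
      card_filter_add_card_filter_not (s := B) (fun w => a + c * w ≠ 0)
    omega
  set B' : Finset (ZMod p) := B₁.image g with hB'
  have hB'card : B'.card = B₁.card := card_image_of_injOn hginj
  set β' : ZMod p → ℂ := fun y => β (Function.invFunOn g (B₁ : Set (ZMod p)) y) *
    χ (a + c * Function.invFunOn g (B₁ : Set (ZMod p)) y) with hβ'
  have hβ'1 : ∀ y, ‖β' y‖ ≤ 1 := by
    intro y
    rw [hβ']
    simp only [norm_mul]
    exact mul_le_one₀ (hβ _) (norm_nonneg _) (FINM_norm χ _)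
  have hinv : ∀ w ∈ B₁, Function.invFunOn g (B₁ : Set (ZMod p)) (g w) = w := by
    intro w hw
    exact hginj.leftInvOn_invFunOn (mem_coe.mpr hw)
  -- the set `A'`
  have hninj : Set.InjOn (fun z => ((n z : ℕ) : ZMod p)) (A : Set (ZMod p)) := by
    intro z hz y hy he
    have hz' := mem_coe.mp hz
    have hy' := mem_coe.mp hy
    have he' : ((n z : ℕ) : ZMod p) = ((n y : ℕ) : ZMod p) := he
    rw [hnz z hz', hnz y hy', he']
  set A' : Finset (ZMod p) := A.image (fun z => ((n z : ℕ) : ZMod p)) with hA'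
  have hAN : A.card ≤ N := by
    have h2 : A'.card = A.card := card_image_of_injOn hninj
    rw [← h2]
    have h3 : A' ⊆ (range N).image (fun k : ℕ => (k : ZMod p)) := by
      intro x hx
      rw [hA', mem_image] at hx
      obtain ⟨z, hz, rfl⟩ := hx
      exact mem_image.mpr ⟨n z, mem_range.mpr (hnN z hz), rfl⟩
    exact (card_le_card h3).trans (card_image_le.trans (card_range N).le)
  -- pointwise bound
  have hpt : ∀ z ∈ A, ‖∑ w ∈ B, β w * χ (z + w)‖ ≤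
      ‖∑ y ∈ B', β' y * χ (((n z : ℕ) : ZMod p) + y)‖ + 1 := by
    intro z hz
    have hsplit : ∑ w ∈ B, β w * χ (z + w) = ∑ w ∈ B₁, β w * χ (z + w) +
        ∑ w ∈ B.filter (fun w => ¬ (a + c * w ≠ 0)), β w * χ (z + w) :=
      (sum_filter_add_sum_filter_not B _ _).symm
    have e1 : ∑ w ∈ B₁, β w * χ (z + w) = χ ((c * (n z : ZMod p) + d)⁻¹) *
        ∑ y ∈ B', β' y * χ (((n z : ℕ) : ZMod p) + y) := by
      rw [hB', sum_image hginj, mul_sum]
      apply sum_congr rfl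
      intro w hw
      have hw' := (mem_filter.mp hw).2
      have e2 := FINM_point χ a b c d (n z : ZMod p) w (hnd z hz) hw'
      rw [← hnz z hz] at e2
      rw [e2, hβ']
      simp only [hinv w hw]
      rw [hg]
      ring
    have e3 : ‖∑ w ∈ B₁, β w * χ (z + w)‖ ≤
        ‖∑ y ∈ B', β' y * χ (((n z : ℕ) : ZMod p) + y)‖ := by
      rw [e1, norm_mul]
      exact mul_le_of_le_one_left (norm_nonneg _) (FINM_norm χ _)
    have e4 : ‖∑ w ∈ B.filter (fun w => ¬ (a + c * w ≠ 0)), β w * χ (z + w)‖ ≤ 1 := by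
      have h5 : B₁.card + (B.filter (fun w => ¬ (a + c * w ≠ 0))).card = B.card :=
        card_filter_add_card_filter_not (s := B) (fun w => a + c * w ≠ 0)
      have h6 : ((B.filter (fun w => ¬ (a + c * w ≠ 0))).card : ℝ) ≤ 1 := by
        have : (B.filter (fun w => ¬ (a + c * w ≠ 0))).card ≤ 1 := by omega
        exact_mod_cast this
      calc ‖∑ w ∈ B.filter (fun w => ¬ (a + c * w ≠ 0)), β w * χ (z + w)‖
          ≤ ∑ w ∈ B.filter (fun w => ¬ (a + c * w ≠ 0)), ‖β w * χ (z + w)‖ := norm_sum_le _ _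
        _ ≤ ∑ w ∈ B.filter (fun w => ¬ (a + c * w ≠ 0)), (1 : ℝ) := by
            apply sum_le_sum
            intro w _
            rw [norm_mul]
            exact mul_le_one₀ (hβ w) (norm_nonneg _) (FINM_norm χ _)
        _ = ((B.filter (fun w => ¬ (a + c * w ≠ 0))).card : ℝ) := by simp
        _ ≤ 1 := h6
    rw [hsplit]
    exact (norm_add_le _ _).trans (add_le_add e3 e4)
  -- conditions of FIN
  have hx : (p : ℝ) ^ ε = (p : ℝ) ^ (ε / 2) * (p : ℝ) ^ (ε / 2) := by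
    rw [← Real.rpow_add hp0]; congr 1; ring
  have hBr : (B.card : ℝ) ≤ B₁.card + 1 := by exact_mod_cast hBcard
  have c1 : (p : ℝ) ^ (ε / 2) ≤ N := by
    refine le_trans ?_ hN
    rw [hx]
    exact le_mul_of_one_le_right (by positivity) (by linarith)
  have c2 : (p : ℝ) ^ (ε / 2) ≤ B'.card := by
    rw [hB'card]
    have : 2 * (p : ℝ) ^ (ε / 2) ≤ (p : ℝ) ^ ε := by
      rw [hx]
      exact mul_le_mul_of_nonneg_right n1 (by positivity)
    linarith
  have c3 : (p : ℝ) ^ (1 / 2 + ε / 2) ≤ N * B'.card := by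
    rw [hB'card]
    have h2 : 2 * (p : ℝ) ^ (1 / 2 + ε / 2) ≤ (p : ℝ) ^ (1 / 2 + ε) := by
      have : (p : ℝ) ^ (1 / 2 + ε) = (p : ℝ) ^ (ε / 2) * (p : ℝ) ^ (1 / 2 + ε / 2) := by
        rw [← Real.rpow_add hp0]; congr 1; ring
      rw [this]
      exact mul_le_mul_of_nonneg_right n1 (by positivity)
    have h3 : (B.card : ℝ) ≤ 2 * B₁.card := by
      have : 2 * (p : ℝ) ^ (ε / 2) ≤ (p : ℝ) ^ ε := by
        rw [hx]
        exact mul_le_mul_of_nonneg_right n1 (by positivity)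
      linarith
    have h4 : (N : ℝ) * B.card ≤ N * (2 * B₁.card) :=
      mul_le_mul_of_nonneg_left h3 (Nat.cast_nonneg _)
    linarith
  have hmain := hFp A' B' 0 1 N one_ne_zero hNp (by
    intro x hx
    rw [hA', mem_image] at hx
    obtain ⟨z, hz, rfl⟩ := hx
    exact ⟨n z, hnN z hz, by ring⟩) c1 c2 c3 χ hχ β' hβ'1
  have hsum : ∑ z ∈ A, ‖∑ w ∈ B, β w * χ (z + w)‖ ≤ (p : ℝ) ^ (-δ₀) * N * B'.card + N := by
    calc ∑ z ∈ A, ‖∑ w ∈ B, β w * χ (z + w)‖
        ≤ ∑ z ∈ A, (‖∑ y ∈ B', β' y * χ (((n z : ℕ) : ZMod p) + y)‖ + 1) :=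
          sum_le_sum hpt
      _ = ∑ z ∈ A, ‖∑ y ∈ B', β' y * χ (((n z : ℕ) : ZMod p) + y)‖ + A.card := by
          rw [sum_add_distrib]; simp
      _ = ∑ x ∈ A', ‖∑ y ∈ B', β' y * χ (x + y)‖ + A.card := by
          rw [hA', sum_image hninj]
      _ ≤ (p : ℝ) ^ (-δ₀) * N * B'.card + N := by
          have : (A.card : ℝ) ≤ N := by exact_mod_cast hAN
          exact add_le_add hmain this
  refine hsum.trans ?_
  have hB1B : (B'.card : ℝ) ≤ B.card := by
    rw [hB'card]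
    have : B₁.card ≤ B.card := card_filter_le _ _
    exact_mod_cast this
  have m1 : (p : ℝ) ^ (-δ₀) ≤ (p : ℝ) ^ (-(min δ₀ ε)) :=
    Real.rpow_le_rpow_of_exponent_le hp1 (by have := min_le_left δ₀ ε; linarith)
  have m2 : 1 ≤ (p : ℝ) ^ (-(min δ₀ ε)) * B.card := by
    have h2 : (p : ℝ) ^ (-ε) * (p : ℝ) ^ ε = 1 := by
      rw [← Real.rpow_add hp0]; simp
    have h3 : (p : ℝ) ^ (-ε) ≤ (p : ℝ) ^ (-(min δ₀ ε)) :=
      Real.rpow_le_rpow_of_exponent_le hp1 (by have := min_le_right δ₀ ε; linarith)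
    rw [← h2]
    exact mul_le_mul h3 hB (by positivity) (by positivity)
  have m3 : 2 * (p : ℝ) ^ (-(min δ₀ ε)) ≤ (p : ℝ) ^ (-(min δ₀ ε / 2)) := by
    have : (p : ℝ) ^ (-(min δ₀ ε / 2)) = (p : ℝ) ^ (min δ₀ ε / 2) * (p : ℝ) ^ (-(min δ₀ ε)) := by
      rw [← Real.rpow_add hp0]; congr 1; ring
    rw [this]
    exact mul_le_mul_of_nonneg_right n2 (by positivity)
  have hN0 : (0 : ℝ) ≤ N := Nat.cast_nonneg _
  calc (p : ℝ) ^ (-δ₀) * N * B'.card + N
      ≤ (p : ℝ) ^ (-(min δ₀ ε)) * N * B.card + (p : ℝ) ^ (-(min δ₀ ε)) * N * B.card := by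
        apply add_le_add
        · exact mul_le_mul (mul_le_mul_of_nonneg_right m1 hN0) hB1B (Nat.cast_nonneg _)
            (by positivity)
        · calc (N : ℝ) = N * 1 := (mul_one _).symm
            _ ≤ N * ((p : ℝ) ^ (-(min δ₀ ε)) * B.card) := mul_le_mul_of_nonneg_left m2 hN0
            _ = (p : ℝ) ^ (-(min δ₀ ε)) * N * B.card := by ring
    _ = 2 * (p : ℝ) ^ (-(min δ₀ ε)) * (N * B.card) := by ring
    _ ≤ (p : ℝ) ^ (-(min δ₀ ε / 2)) * (N * B.card) :=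
        mul_le_mul_of_nonneg_right m3 (by positivity)
    _ = (p : ℝ) ^ (-(min δ₀ ε / 2)) * N * B.card := by ring

end Pool.Agent.PY2
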